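import Pool.Agent.Work.MP_10b086_an.Wild.Final

/-!
# A separable Banach *-algebra with `A = A²` and a discontinuous positive functional

`Sq A` is the span of the products `a b`, `Cu A` the span of the products `a b c`, and
`IsPositive f` says that `f (a* a)` is a nonnegative real number for every `a`.
-/

namespace Pool.Agent.Results.MP_10b086_an.SeparableDiscontinuous

open Pool.Agent.Work.MP_10b086_an

/-- One Banach *-algebra satisfying all of (H1), (H2), (H3) and (H4) has a discontinuous positive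
functional. -/
theorem result :
    ∃ (A : Type) (_ : NonUnitalNormedRing A) (_ : NormedSpace ℂ A) (_ : IsScalarTower ℂ A A)
      (_ : SMulCommClass ℂ A A) (_ : CompleteSpace A) (_ : StarRing A) (_ : StarModule ℂ A)
      (_ : TopologicalSpace.SeparableSpace A),
      Sq A = ⊤ ∧ (IsClosed (Cu A : Set A) ∧ FiniteDimensional ℂ (A ⧸ Cu A)) ∧
      FiniteDimensional ℂ (A ⧸ Sq A) ∧
      ∃ f : A →ₗ[ℂ] ℂ, IsPositive f ∧ ¬ Continuous f := by
  obtain ⟨A, i1, i2, i3, i4, i5, i6, i7, i8, h1, f, h2, h3⟩ := Wild.wild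
  have h4 : Cu A = ⊤ := Cu_eq_top h1
  refine ⟨A, i1, i2, i3, i4, i5, i6, i7, i8, h1, ⟨?_, ?_⟩, ?_, f, h2, h3⟩
  · rw [h4]; exact isClosed_univ
  · rw [h4]; infer_instance
  · rw [h1]; infer_instance

end Pool.Agent.Results.MP_10b086_an.SeparableDiscontinuous
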