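import Pool.Agent.Work.MP_10b086_an.Trace

/-!
# Traces on Banach *-algebras satisfying (H1), (H2), (H3) or (H4) are continuous

`A` is a complex Banach *-algebra, not necessarily unital, whose involution is not assumed to be
continuous. `Sq A` is the span of the products `a b`, `Cu A` the span of the products `a b c`, and
`IsTrace f` says that `f` is a linear functional with `f (a* a) ≥ 0` and `f (a b) = f (b a)`.
-/

namespace Pool.Agent.Results.MP_10b086_an.Traces

open Pool.Agent.Work.MP_10b086_an

/-- Every trace on a Banach *-algebra satisfying one of (H1) to (H4) is continuous. -/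
theorem result (A : Type*) [NonUnitalNormedRing A] [NormedSpace ℂ A] [IsScalarTower ℂ A A]
    [SMulCommClass ℂ A A] [CompleteSpace A] [StarRing A] [StarModule ℂ A]
    (hA : Sq A = ⊤ ∨
      (IsClosed (Cu A : Set A) ∧ FiniteDimensional ℂ (A ⧸ Cu A)) ∨
      (TopologicalSpace.SeparableSpace A ∧ Sq A = ⊤) ∨
      (TopologicalSpace.SeparableSpace A ∧ FiniteDimensional ℂ (A ⧸ Sq A)))
    (f : A →ₗ[ℂ] ℂ) (hf : IsTrace f) : Continuous f := by
  rcases hA with h | ⟨h1, h2⟩ | ⟨_, h⟩ | ⟨h1, h2⟩
  · exact trace_continuous_of_Sq hf h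
  · exact trace_continuous_of_Cu hf h1 h2
  · exact trace_continuous_of_Sq hf h
  · exact trace_continuous_of_separable hf h2

end Pool.Agent.Results.MP_10b086_an.Traces
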